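import Mathlib

set_option autoImplicit false

namespace Pool.Agent.Results.MP_b89b7d_lc.Point

open Set Filter

/-- The data `(R, ≤, r)` together with the finitization `≤_fin`. -/
structure Data where
  R : Type
  AR : Type
  le : R → R → Prop
  r : R → ℕ → AR
  lf : AR → AR → Prop

namespace Data
variable (S : Data)

def ini (s t : S.AR) : Prop := ∃ A m n, m ≤ n ∧ s = S.r A m ∧ t = S.r A n

/-- `[s, A]`. -/
def nb (s : S.AR) (A : S.R) : Set S.R := {B | (∃ n, s = S.r B n) ∧ S.le B A}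

/-- `depth_B(a) = n`. -/
def depth (B : S.R) (a : S.AR) (n : ℕ) : Prop := IsLeast {m | S.lf a (S.r B m)} n

structure IsTRS : Prop where
  ne : Nonempty S.R
  cnt : Countable S.AR
  surj : ∀ a, ∃ A n, a = S.r A n
  refl : ∀ A, S.le A A
  trans : ∀ A B C, S.le A B → S.le B C → S.le A C
  a11 : ∀ A B, S.r A 0 = S.r B 0
  a12 : ∀ A B, A ≠ B → ∃ n, S.r A n ≠ S.r B n
  a13 : ∀ A B n m, S.r A n = S.r B m → n = m ∧ ∀ k < n, S.r A k = S.r B k
  frefl : ∀ a, S.lf a a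
  ftrans : ∀ a b c, S.lf a b → S.lf b c → S.lf a c
  a21 : ∀ b, {a | S.lf a b}.Finite
  a22 : ∀ A B, S.le A B ↔ ∀ n, ∃ m, S.lf (S.r A n) (S.r B m)
  a23 : ∀ a b c, S.ini a b → S.lf b c → ∃ d, S.ini d c ∧ S.lf a d
  a31 : ∀ a B n, S.depth B a n → ∀ A ∈ S.nb (S.r B n) B, (S.nb a A).Nonempty
  a32 : ∀ a A B, S.le A B → (S.nb a A).Nonempty → ∃ n, S.depth B a n ∧
    ∃ A' ∈ S.nb (S.r B n) B, (S.nb a A').Nonempty ∧ S.nb a A' ⊆ S.nb a A
  a4 : ∀ C k B n (O : Set S.AR), S.depth B (S.r C k) n → ∃ A ∈ S.nb (S.r B n) B,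
    (∀ D ∈ S.nb (S.r C k) A, S.r D (k + 1) ∈ O) ∨ ∀ D ∈ S.nb (S.r C k) A, S.r D (k + 1) ∉ O
  closed : @IsClosed (ℕ → S.AR) (@Pi.topologicalSpace _ _ fun _ => ⊥) (range S.r)

def Null (X : Set S.R) : Prop :=
  ∀ s A, (S.nb s A).Nonempty → ∃ B ∈ S.nb s A, S.nb s B ∩ X = ∅

def Tree (X : Set S.AR) : Prop := ∀ s t, S.ini s t → t ∈ X → s ∈ X

/-- `G_x`, where `x` codes `X_n = {a | x (c (n, a)) = 1}`. -/
def G (c : ℕ × S.AR → ℕ) (x : ℕ → Bool) : Set S.R :=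
  {A | (∀ n, S.Tree {a | x (c (n, a)) = true}) ∧ ∀ n, ¬ ∀ k, x (c (n, S.r A k)) = true}

def C (c : ℕ × S.AR → ℕ) : Set (ℕ → Bool) := {x | ¬ S.Null (S.G c x)}

end Data

/-- Projections of coanalytic sets. -/
def Sigma12 (A : Set (ℕ → Bool)) : Prop :=
  ∃ P : Set ((ℕ → Bool) × (ℕ → Bool)), MeasureTheory.AnalyticSet Pᶜ ∧ A = Prod.fst '' P

def Complete (C : Set (ℕ → Bool)) : Prop :=
  Sigma12 C ∧ ∀ A, Sigma12 A → ∃ f : (ℕ → Bool) → ℕ → Bool, Continuous f ∧ A = f ⁻¹' C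

def pt : Data := ⟨Unit, ℕ, fun _ _ => True, fun _ n => n, Eq⟩

theorem nbu (n : ℕ) (A : Unit) : pt.nb n A = univ := eq_univ_of_forall fun _ => ⟨⟨n, rfl⟩, trivial⟩

theorem trs : pt.IsTRS where
  ne := ⟨()⟩
  cnt := inferInstanceAs (Countable ℕ)
  surj a := ⟨(), a, rfl⟩
  refl _ := trivial
  trans _ _ _ _ _ := trivial
  a11 _ _ := rfl
  a12 _ _ h := (h rfl).elim
  a13 _ _ _ _ h := ⟨h, fun _ _ => rfl⟩
  frefl _ := rfl
  ftrans _ _ _ := Eq.trans
  a21 b := (finite_singleton b).subset fun _ h => h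
  a22 _ _ := ⟨fun _ n => ⟨n, rfl⟩, fun _ => trivial⟩
  a23 a _ _ h e := ⟨a, e ▸ h, rfl⟩
  a31 a _ _ _ _ _ := ⟨(), ⟨a, rfl⟩, trivial⟩
  a32 a _ _ _ h := ⟨a, ⟨rfl, fun _ e => Eq.le e⟩, (), ⟨⟨a, rfl⟩, trivial⟩, h, subset_rfl⟩
  a4 _ k _ n O _ := ⟨(), ⟨⟨n, rfl⟩, trivial⟩, (em (k + 1 ∈ O)).imp (fun h _ _ => h) fun h _ _ => h⟩
  closed := by
    change IsClosed (range fun (_ : Unit) (n : ℕ) => n)
    rw [range_const]
    exact isClosed_singleton

theorem op (n : ℕ) (b : Bool) : IsOpen {x : ℕ → Bool | x n = b} :=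
  (isOpen_discrete {b}).preimage (continuous_apply (A := fun _ => Bool) n)

theorem den (p : (ℕ → Bool) → Prop) (b : Bool) 
    (h : ∀ (x : ℕ → Bool) N, p fun n => if n < N then x n else b) :
    Dense {x | p x} := fun x =>
  mem_closure_of_tendsto (f := fun N n => if n < N then x n else b) (b := atTop)
    (tendsto_pi_nhds.2 fun n => tendsto_const_nhds.congr' ((eventually_gt_atTop n).mono
      fun _ l => (if_pos l).symm)) (.of_forall (h x))

theorem result : ∃ S : Data, S.IsTRS ∧ ∀ c : ℕ × S.AR → ℕ, c.Injective → ¬ Complete (S.C c) := by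
  refine ⟨pt, trs, fun c _ ⟨_, h⟩ => ?_⟩
  have h1 : IsGδ (pt.C c) := by
    have : pt.C c = (⋂ n, ⋂ s, ⋂ t, ⋂ _ : pt.ini s t,
        {x | x (c (n, t)) = false} ∪ {x | x (c (n, s)) = true}) ∩
          ⋂ n, ⋃ k, {x | x (c (n, k)) = false} := by
      ext x
      have : ¬ pt.Null (pt.G c x) ↔ () ∈ pt.G c x := by
        refine ⟨fun h => by_contra fun g => h fun s A _ => ⟨(), ⟨⟨s, rfl⟩, trivial⟩,
          eq_empty_of_forall_notMem fun _ l => g l.2⟩, fun h g => ?_⟩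
        obtain ⟨B, -, e⟩ := g (0 : ℕ) () ⟨(), ⟨0, rfl⟩, trivial⟩
        exact e.le ⟨⟨⟨0, rfl⟩, trivial⟩, h⟩
      refine this.trans ?_
      simp only [mem_setOf_eq, Data.G, Data.Tree, mem_inter_iff, mem_iInter,
        mem_union, mem_iUnion, not_forall, Bool.not_eq_true, imp_iff_not_or (a := _ = true)]
      rfl
    rw [this]
    have : Countable pt.AR := trs.cnt
    exact (IsGδ.iInter fun _ => .iInter fun _ => .iInter fun _ => .iInter fun _ =>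
      ((op _ _).union (op _ _)).isGδ).inter (.iInter fun _ => (isOpen_iUnion fun _ => op _ _).isGδ)
  have h2 : IsGδ {x : ℕ → Bool | ∀ N, ∃ n ≥ N, x n = true} := by
    simp only [setOf_forall, setOf_exists, ← exists_prop]
    exact .iInter fun _ => (isOpen_iUnion fun _ => isOpen_iUnion fun _ => op _ _).isGδ
  have : PolishSpace Bool := inferInstance
  have : PolishSpace (ℕ → Bool) := inferInstance
  obtain ⟨f, h3, h4⟩ := h {x | ¬ ∀ N, ∃ n ≥ N, x n = true} ⟨_ ×ˢ univ,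
    (h2.measurableSet.compl.prod .univ).compl.analyticSet, (fst_image_prod _ univ_nonempty).symm⟩
  obtain ⟨x, h5, h6⟩ := ((den _ true fun x N M => ⟨max N M, by simp, by simp⟩).inter_of_Gδ h2
    (h4 ▸ h1.preimage h3) (den _ false fun x N l => by
      obtain ⟨n, h, e⟩ := l N
      simp [h.not_gt] at e)).nonempty
  exact h6 h5

end Pool.Agent.Results.MP_b89b7d_lc.Point
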